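import Pool.Agent.W2helper57.LC.Hat

/-!
# The low hierarchy and the refined low hierarchy may collapse to `P` with an infinite `PH`

The classes are defined in `Pool.Agent.W2helper61.LH.Defs`: `P O`, `Low O k` (the level `L_k` of
the low hierarchy in `NP`) and `LowHat O n` (the level `L^_n` of the refined low hierarchy),
relative to the oracle `O`. `IsSig O k X` and `IsDelta O n X` say that the language `X` is in the
level `Σ_k` or `Δ_n` of the polynomial hierarchy relative to `O`, and `rel O B` is the oracle `O`
together with the language `B`.

Relative to the oracle `O` of the theorem the polynomial hierarchy is infinite and all levels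
`L_k`, `L^_n` are equal to `P`. Moreover no set outside `P`, in `NP` or not, is low for any level
`Σ_k` or `Δ_n`.

Idea of the proof. The oracle has a free column `G`, two columns which tell the actions of all
algorithms on shorter strings, and a column `F`. At every stage we have a functional which gives the
oracle as a function of `G` and the rest of `F`, and a finite condition. If the set `B` which is
computed by the next machine is not low for `Σ_k` relative to some oracle of the present form, a
finite condition makes this permanent. Otherwise a new column of `F` gets the codes of `B`: the bit
for `⟨x, 1^t⟩`, where `t` is larger than the square of the length of all questions about `x`, tells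
whether `x` is in `B`. Then `B` is in `P`. The codes do not help: by induction on the length of the
question a `Σ_k`-computation relative to the new oracle is replaced by one relative to the oracle
without long codes, since `B` is low. So for large `k` the level `Σ_k` relative to the oracle is
`Σ_k` relative to `G` and a short part of the oracle, and the lower bounds for constant-depth
circuits make `Σ_(k+1)` different from `Σ_k`.
-/

set_option autoImplicit false

namespace Pool.Agent.Results.MP_a76659_lc.LowCollapse

open Pool.Agent.H620R2.Gauge Pool.Agent.H591R3.PHG Pool.Agent.W2helper61.LH
  Pool.Agent.W2helper57.LC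

theorem result :
    ∃ O : Oracle,
      (∀ k : ℕ, ∃ X, IsSig O (k + 1) X ∧ ¬ IsSig O k X) ∧
      (∀ k : ℕ, Low O k = P O) ∧ (∀ n : ℕ, LowHat O n = P O) ∧
      (∀ (k : ℕ) (B : Set (List Bool)), (∀ X, IsSig (rel O B) k X → IsSig O k X) → B ∈ P O) ∧
      ∀ (n : ℕ) (B : Set (List Bool)), (∀ X, IsDelta (rel O B) n X → IsDelta O n X) → B ∈ P O := by
  obtain ⟨O, a1, a2, a3, a4, a5⟩ := low_collapse
  exact ⟨O, a1, a4, a5, a2, a3⟩

end Pool.Agent.Results.MP_a76659_lc.LowCollapse
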