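import Pool.Agent.W2helper61.LH.Fin

/-!
# An infinite polynomial hierarchy with `P = L^_1 = L_1`, `L_1 ⊊ L^_2 ⊊ L_2` (relative to an oracle)

The classes are defined in `Pool.Agent.W2helper61.LH.Defs`: `P O`, `Low O k` (the level `L_k` of
the low hierarchy in `NP`) and `LowHat O n` (the level `L^_n` of the refined hierarchy), relative to
the oracle `O`; `IsSig O k L` says that the language `L` is in the level `Σ_k` of the polynomial
hierarchy relative to `O`.

Relative to the oracle of the theorem the polynomial hierarchy is infinite. The inclusion
`L^_1 ⊆ L_1` of Q1 is an equality (both classes are `P`), so the relativized form of Q1 fails. But
both inclusions of Q1 for `k = 2` are proper: some language is in `L^_2` and not in `L_1`, and some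
language is in `L_2` and not in `L^_2`. (The inclusions `L_1 ⊆ L^_2 ⊆ L_2` hold for every oracle.)

Idea of the proof. The oracle is the join of a Cohen generic column `A` and a fixed column `U`.

* The hierarchy is infinite for a generic column `A` and every column `U`.
* `NP ∩ coNP = P`: two machines for `NP` with complementary languages are forced to have disjoint
  languages by a finite part of `A`. Then repeatedly asking the questions of an accepting computation
  of the first machine which is compatible with the answers so far reveals every certificate for the
  second machine. The column `U` tells the actions of these strategies (and of strategies for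
  algorithms which use the column `U` at shorter strings, by recursion on the length).
* `L_1 ≠ L^_2`: the tally language of the column `A` is not in `P`; tally languages in `NP` are in
  `L^_2`.
* `L^_2 ≠ L_2`: the column `A` gives a relation on the strings of length `n`. The language `B`
  consists of the strings which are dominated by a string of the same length, and of all strings of
  length `n` if the relation is not a linear order (this has a short certificate). A Σ_2-machine can
  guess the maximum, or a certificate, and verify it, so `B` is in `L_2`. The label of the maximum
  (another bit of `A`) is computed in `NP` relative to `B`, but not in `P` relative to a language of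
  `NP`: an adversary keeps the maximum outside the polynomially many strings which are touched by the
  accepting computations for the positive answers.
-/

set_option autoImplicit false

namespace Pool.Agent.Results.MP_a76659_lc.LowLevelsInfiniteHierarchy

open Pool.Agent.H620R2.Gauge Pool.Agent.H591R3.PHG Pool.Agent.W2helper61.LH

/-- There is an oracle `O` relative to which the polynomial hierarchy is infinite,
`L_0 = L^_1 = L_1 = P`, some language is in `L^_2` but not in `L_1`, and some language is in `L_2`
but not in `L^_2`. -/
theorem result : ∃ O : Oracle,
    (∀ k : ℕ, ∃ L, IsSig O (k + 1) L ∧ ¬ IsSig O k L) ∧
    Low O 0 = P O ∧ LowHat O 1 = P O ∧ Low O 1 = P O ∧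
    ¬ LowHat O 2 ⊆ Low O 1 ∧ ¬ Low O 2 ⊆ LowHat O 2 := low_main

end Pool.Agent.Results.MP_a76659_lc.LowLevelsInfiniteHierarchy
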